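import Pool.Agent.H14.Zr

set_option autoImplicit false

namespace Pool.Agent.Results.MP_c15e47_co.Additive

/-- There is a constant C such that for every graph G on n vertices with an even number of edges,
every colouring of the edges of K_N, N ≥ n + C, by the Klein four-group has a zero-sum copy of G. -/
theorem result : ∃ C : ℕ, ∀ (n : ℕ) (G : SimpleGraph (Fin n)) [DecidableRel G.Adj],
    Even G.edgeFinset.card → ∀ N : ℕ, n + C ≤ N → ∀ c : Sym2 (Fin N) → ZMod 2 × ZMod 2,
      ∃ φ : Fin n ↪ Fin N, ∑ e ∈ G.edgeFinset, c (Sym2.map φ e) = 0 := by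
  obtain ⟨C, hC⟩ := Pool.Agent.H14.Zr.main (ZMod 2 × ZMod 2) 2
  refine ⟨C, fun n G i h N hN c => ?_⟩
  have e : ∀ j j' : Fintype G.edgeSet, @SimpleGraph.edgeFinset _ G j =
      @SimpleGraph.edgeFinset _ G j' := fun j j' => by rw [Subsingleton.elim j j']
  obtain ⟨φ, hφ⟩ := hC (Fin n) (Fin N) G c (e _ _ ▸ even_iff_two_dvd.1 h) (by simpa using hN)
  exact ⟨φ, e _ _ ▸ hφ⟩

end Pool.Agent.Results.MP_c15e47_co.Additive
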